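import Pool.Agent.MP_337e3e_al.H98.Gen

/-!
# One sided slopes
-/

namespace Pool.Agent.MP_337e3e_al.H98

open Set

/-- `P` holds on a right neighbourhood of `θ`. -/
def EvR (θ : ℝ) (P : ℝ → Prop) : Prop := ∃ y, θ < y ∧ ∀ z, θ ≤ z → z ≤ y → P z

/-- `P` holds on a left neighbourhood of `θ`. -/
def EvL (θ : ℝ) (P : ℝ → Prop) : Prop := ∃ x, x < θ ∧ ∀ z, x ≤ z → z ≤ θ → P z

lemma EvR.and {θ : ℝ} {P Q : ℝ → Prop} (h : EvR θ P) (h' : EvR θ Q) :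
    EvR θ fun z => P z ∧ Q z := by
  obtain ⟨y, a, b⟩ := h
  obtain ⟨y', a', b'⟩ := h'
  exact ⟨min y y', lt_min a a', fun z c d =>
    ⟨b z c (d.trans (min_le_left _ _)), b' z c (d.trans (min_le_right _ _))⟩⟩

lemma EvL.and {θ : ℝ} {P Q : ℝ → Prop} (h : EvL θ P) (h' : EvL θ Q) :
    EvL θ fun z => P z ∧ Q z := by
  obtain ⟨y, a, b⟩ := h
  obtain ⟨y', a', b'⟩ := h'
  exact ⟨max y y', max_lt a a', fun z c d =>
    ⟨b z ((le_max_left _ _).trans c) d, b' z ((le_max_right _ _).trans c) d⟩⟩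

lemma EvR.mono {θ : ℝ} {P Q : ℝ → Prop} (h : EvR θ P) (h' : ∀ z, P z → Q z) : EvR θ Q :=
  let ⟨y, a, b⟩ := h
  ⟨y, a, fun z c d => h' z (b z c d)⟩

lemma EvL.mono {θ : ℝ} {P Q : ℝ → Prop} (h : EvL θ P) (h' : ∀ z, P z → Q z) : EvL θ Q :=
  let ⟨y, a, b⟩ := h
  ⟨y, a, fun z c d => h' z (b z c d)⟩

lemma EvR.self {θ : ℝ} {P : ℝ → Prop} (h : EvR θ P) : P θ :=
  let ⟨_, a, b⟩ := h
  b θ le_rfl a.le

lemma EvL.self {θ : ℝ} {P : ℝ → Prop} (h : EvL θ P) : P θ :=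
  let ⟨_, a, b⟩ := h
  b θ a.le le_rfl

lemma PL.lt_inv {f : G} (hf : PL f) {x y : ℝ} : x < f⁻¹ y ↔ f x < y := by rw [← hf.lt, ap_inv]

lemma PL.inv_lt {f : G} (hf : PL f) {x y : ℝ} : f⁻¹ x < y ↔ x < f y := by rw [← hf.lt, ap_inv]

lemma PL.le_inv {f : G} (hf : PL f) {x y : ℝ} : x ≤ f⁻¹ y ↔ f x ≤ y := by rw [← hf.le, ap_inv]

lemma PL.inv_le {f : G} (hf : PL f) {x y : ℝ} : f⁻¹ x ≤ y ↔ x ≤ f y := by rw [← hf.le, ap_inv]

lemma EvR.comp {f : G} (hf : PL f) {θ : ℝ} {P : ℝ → Prop} (h : EvR (f θ) P) :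
    EvR θ fun z => P (f z) :=
  let ⟨y, a, b⟩ := h
  ⟨f⁻¹ y, hf.lt_inv.2 a, fun _ c d => b _ (hf.le.2 c) (hf.le_inv.1 d)⟩

lemma EvL.comp {f : G} (hf : PL f) {θ : ℝ} {P : ℝ → Prop} (h : EvL (f θ) P) :
    EvL θ fun z => P (f z) :=
  let ⟨y, a, b⟩ := h
  ⟨f⁻¹ y, hf.inv_lt.2 a, fun _ c d => b _ (hf.inv_le.1 c) (hf.le.2 d)⟩

/-- The right slope of `f` at `θ` is `2 ^ n`. -/
def RS (f : G) (θ : ℝ) (n : ℤ) : Prop := EvR θ fun z => f z = f θ + 2 ^ n * (z - θ)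

/-- The left slope of `f` at `θ` is `2 ^ n`. -/
def LS (f : G) (θ : ℝ) (n : ℤ) : Prop := EvL θ fun z => f z = f θ + 2 ^ n * (z - θ)

/-- The exponent of the right slope. -/
noncomputable def rs (f : G) (θ : ℝ) : ℤ := Classical.epsilon (RS f θ)

/-- The exponent of the left slope. -/
noncomputable def ls (f : G) (θ : ℝ) : ℤ := Classical.epsilon (LS f θ)

lemma two_zpow_inj {m n : ℤ} (h : (2 : ℝ) ^ m = 2 ^ n) : m = n :=
  zpow_right_injective₀ two_pos (by norm_num) h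

lemma RS.eq {f : G} {θ : ℝ} {n : ℤ} (h : RS f θ n) : rs f θ = n := by
  obtain ⟨y, a, b⟩ := (show RS f θ (rs f θ) from Classical.epsilon_spec ⟨n, h⟩).and h
  obtain ⟨c, d⟩ := b y a.le le_rfl
  exact two_zpow_inj (mul_right_cancel₀ (sub_pos.2 a).ne' (by linarith))

lemma LS.eq {f : G} {θ : ℝ} {n : ℤ} (h : LS f θ n) : ls f θ = n := by
  obtain ⟨y, a, b⟩ := (show LS f θ (ls f θ) from Classical.epsilon_spec ⟨n, h⟩).and h
  obtain ⟨c, d⟩ := b y le_rfl a.le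
  exact two_zpow_inj (mul_right_cancel₀ (sub_neg.2 a).ne (by linarith))

lemma Lin.RS {f : G} {ν ν' : ℕ × ℕ} (h : Lin f ν ν') {θ : ℝ} (h0 : pt ν 0 ≤ θ) (h1 : θ < pt ν 1) :
    RS f θ (ν.1 - ν'.1) :=
  ⟨_, h1, fun _ a b => h.affine h0 h1.le (h0.trans a) b⟩

lemma Lin.LS {f : G} {ν ν' : ℕ × ℕ} (h : Lin f ν ν') {θ : ℝ} (h0 : pt ν 0 < θ) (h1 : θ ≤ pt ν 1) :
    LS f θ (ν.1 - ν'.1) :=
  ⟨_, h0, fun _ a b => h.affine h0.le h1 a (b.trans h1)⟩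

lemma rs_of_id {f : G} {θ : ℝ} (h : EvR θ fun z => f z = z) : rs f θ = 0 :=
  RS.eq (h.mono fun z hz => by rw [hz, h.self]; simp)

lemma ls_of_id {f : G} {θ : ℝ} (h : EvL θ fun z => f z = z) : ls f θ = 0 :=
  LS.eq (h.mono fun z hz => by rw [hz, h.self]; simp)

lemma PL.idR {f : G} (hf : PL f) {θ : ℝ} (h : θ < 0 ∨ 1 ≤ θ) : EvR θ fun z => f z = z := by
  rcases h with h | h
  · exact ⟨0, h, fun z _ b => hf.left z b⟩
  · exact ⟨θ + 1, by linarith, fun z a _ => hf.right z (h.trans a)⟩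

lemma PL.idL {f : G} (hf : PL f) {θ : ℝ} (h : θ ≤ 0 ∨ 1 < θ) : EvL θ fun z => f z = z := by
  rcases h with h | h
  · exact ⟨θ - 1, by linarith, fun z _ b => hf.left z (b.trans h)⟩
  · exact ⟨1, h, fun z a _ => hf.right z a⟩

lemma PL.mem_of_rs {f : G} (hf : PL f) {θ : ℝ} (h : rs f θ ≠ 0) : 0 ≤ θ ∧ θ < 1 := by
  by_contra hc
  rw [not_and_or, not_le, not_lt] at hc
  exact h (rs_of_id (hf.idR hc))

lemma PL.mem_of_ls {f : G} (hf : PL f) {θ : ℝ} (h : ls f θ ≠ 0) : 0 < θ ∧ θ ≤ 1 := by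
  by_contra hc
  rw [not_and_or, not_le, not_lt] at hc
  exact h (ls_of_id (hf.idL hc))

lemma PL.nodeR {f : G} (hf : PL f) {θ : ℝ} (h0 : 0 ≤ θ) (h1 : θ < 1) :
    ∃ ν ν', Lin f ν ν' ∧ pt ν 0 ≤ θ ∧ θ < pt ν 1 := by
  obtain ⟨M, hM⟩ := hf.deep
  obtain ⟨i, hi, a, b⟩ := exists_node_right h0 h1 M
  obtain ⟨ν', -, h⟩ := hM _ hi le_rfl
  exact ⟨_, _, h, a, b⟩

lemma PL.nodeL {f : G} (hf : PL f) {θ : ℝ} (h0 : 0 < θ) (h1 : θ ≤ 1) :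
    ∃ ν ν', Lin f ν ν' ∧ pt ν 0 < θ ∧ θ ≤ pt ν 1 := by
  obtain ⟨M, hM⟩ := hf.deep
  obtain ⟨i, hi, a, b⟩ := exists_node_left h0 h1 M
  obtain ⟨ν', -, h⟩ := hM _ hi le_rfl
  exact ⟨_, _, h, a, b⟩

lemma PL.RS {f : G} (hf : PL f) (θ : ℝ) : RS f θ (rs f θ) := by
  refine Classical.epsilon_spec (p := Pool.Agent.MP_337e3e_al.H98.RS f θ) ?_
  by_cases h : θ < 0 ∨ 1 ≤ θ
  · exact ⟨0, (hf.idR h).mono fun z hz => by rw [hz, (hf.idR h).self]; simp⟩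
  · rw [not_or, not_lt, not_le] at h
    obtain ⟨ν, ν', a, b, c⟩ := hf.nodeR h.1 h.2
    exact ⟨_, a.RS b c⟩

lemma PL.LS {f : G} (hf : PL f) (θ : ℝ) : LS f θ (ls f θ) := by
  refine Classical.epsilon_spec (p := Pool.Agent.MP_337e3e_al.H98.LS f θ) ?_
  by_cases h : θ ≤ 0 ∨ 1 < θ
  · exact ⟨0, (hf.idL h).mono fun z hz => by rw [hz, (hf.idL h).self]; simp⟩
  · rw [not_or, not_lt, not_le] at h
    obtain ⟨ν, ν', a, b, c⟩ := hf.nodeL h.1 h.2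
    exact ⟨_, a.LS b c⟩

lemma PL.idR_of {f : G} (hf : PL f) {θ : ℝ} (h : f θ = θ) (h0 : rs f θ = 0) :
    EvR θ fun z => f z = z :=
  (hf.RS θ).mono fun z hz => by rw [hz, h, h0]; simp

lemma PL.idL_of {f : G} (hf : PL f) {θ : ℝ} (h : f θ = θ) (h0 : ls f θ = 0) :
    EvL θ fun z => f z = z :=
  (hf.LS θ).mono fun z hz => by rw [hz, h, h0]; simp

lemma rs_congr {f g : G} (hg : PL g) {θ : ℝ} (h : EvR θ fun z => f z = g z) : rs f θ = rs g θ :=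
  RS.eq (((hg.RS θ).and h).mono fun z hz => by rw [hz.2, hz.1, h.self])

lemma ls_congr {f g : G} (hg : PL g) {θ : ℝ} (h : EvL θ fun z => f z = g z) : ls f θ = ls g θ :=
  LS.eq (((hg.LS θ).and h).mono fun z hz => by rw [hz.2, hz.1, h.self])

lemma rs_mul {f g : G} (hf : PL f) (hg : PL g) (θ : ℝ) :
    rs (f * g) θ = rs f (g θ) + rs g θ :=
  RS.eq ((((hf.RS (g θ)).comp hg).and (hg.RS θ)).mono fun z hz => by
    rw [mul_ap, mul_ap, hz.1, hz.2, zpow_add₀ two_ne_zero]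
    ring)

lemma ls_mul {f g : G} (hf : PL f) (hg : PL g) (θ : ℝ) :
    ls (f * g) θ = ls f (g θ) + ls g θ :=
  LS.eq ((((hf.LS (g θ)).comp hg).and (hg.LS θ)).mono fun z hz => by
    rw [mul_ap, mul_ap, hz.1, hz.2, zpow_add₀ two_ne_zero]
    ring)

lemma rs_one (θ : ℝ) : rs 1 θ = 0 := rs_of_id ⟨θ + 1, by linarith, fun _ _ _ => rfl⟩

lemma ls_one (θ : ℝ) : ls 1 θ = 0 := ls_of_id ⟨θ - 1, by linarith, fun _ _ _ => rfl⟩

lemma rs_inv {f : G} (hf : PL f) (θ : ℝ) : rs f⁻¹ (f θ) = - rs f θ := by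
  have := rs_mul hf.inv hf θ
  rw [inv_mul_cancel, rs_one] at this
  omega

lemma ls_inv {f : G} (hf : PL f) (θ : ℝ) : ls f⁻¹ (f θ) = - ls f θ := by
  have := ls_mul hf.inv hf θ
  rw [inv_mul_cancel, ls_one] at this
  omega

lemma rs_inv' {f : G} (hf : PL f) {θ : ℝ} (h : f θ = θ) : rs f⁻¹ θ = - rs f θ := by
  rw [← rs_inv hf, h]

lemma ls_inv' {f : G} (hf : PL f) {θ : ℝ} (h : f θ = θ) : ls f⁻¹ θ = - ls f θ := by
  rw [← ls_inv hf, h]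

lemma conj_ap (c f : G) (x : ℝ) : (c * f * c⁻¹) (c x) = c (f x) := by simp

lemma PL.conj {c f : G} (hc : PL c) (hf : PL f) : PL (c * f * c⁻¹) := (hc.mul hf).mul hc.inv

lemma rs_conj {c f : G} (hc : PL c) (hf : PL f) {θ : ℝ} (h : f θ = θ) :
    rs (c * f * c⁻¹) (c θ) = rs f θ := by
  rw [rs_mul (hc.mul hf) hc.inv, inv_ap, rs_mul hc hf, h, rs_inv hc]
  ring

lemma ls_conj {c f : G} (hc : PL c) (hf : PL f) {θ : ℝ} (h : f θ = θ) :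
    ls (c * f * c⁻¹) (c θ) = ls f θ := by
  rw [ls_mul (hc.mul hf) hc.inv, inv_ap, ls_mul hc hf, h, ls_inv hc]
  ring

lemma PL.pow {f : G} (hf : PL f) (n : ℕ) : PL (f ^ n) := by
  induction n with
  | zero => simpa using PL.one
  | succ n ih => rw [pow_succ]; exact ih.mul hf

lemma PL.zpow {f : G} (hf : PL f) (n : ℤ) : PL (f ^ n) := by
  cases n with
  | ofNat n => simpa using hf.pow n
  | negSucc n => simpa using (hf.pow (n + 1)).inv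

lemma pow_fix {f : G} {θ : ℝ} (h : f θ = θ) (n : ℕ) : (f ^ n) θ = θ :=
  Equiv.Perm.pow_apply_eq_self_of_apply_eq_self h n

lemma zpow_fix {f : G} {θ : ℝ} (h : f θ = θ) (n : ℤ) : (f ^ n) θ = θ :=
  Equiv.Perm.zpow_apply_eq_self_of_apply_eq_self h n

lemma rs_pow {f : G} (hf : PL f) {θ : ℝ} (h : f θ = θ) (n : ℕ) : rs (f ^ n) θ = n * rs f θ := by
  induction n with
  | zero => simp [rs_one]
  | succ n ih => rw [pow_succ, rs_mul (hf.pow n) hf, h, ih]; push_cast; ring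

lemma ls_pow {f : G} (hf : PL f) {θ : ℝ} (h : f θ = θ) (n : ℕ) : ls (f ^ n) θ = n * ls f θ := by
  induction n with
  | zero => simp [ls_one]
  | succ n ih => rw [pow_succ, ls_mul (hf.pow n) hf, h, ih]; push_cast; ring

lemma rs_zpow {f : G} (hf : PL f) {θ : ℝ} (h : f θ = θ) (n : ℤ) : rs (f ^ n) θ = n * rs f θ := by
  cases n with
  | ofNat n => simpa using rs_pow hf h n
  | negSucc n =>
    rw [zpow_negSucc, rs_inv' (hf.pow _) (pow_fix h _), rs_pow hf h, Int.negSucc_eq]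
    push_cast
    ring

lemma ls_zpow {f : G} (hf : PL f) {θ : ℝ} (h : f θ = θ) (n : ℤ) : ls (f ^ n) θ = n * ls f θ := by
  cases n with
  | ofNat n => simpa using ls_pow hf h n
  | negSucc n =>
    rw [zpow_negSucc, ls_inv' (hf.pow _) (pow_fix h _), ls_pow hf h, Int.negSucc_eq]
    push_cast
    ring

lemma PL.lt_pow {f : G} (hf : PL f) {z : ℝ} (h : z < f z) (n : ℕ) : z < (f ^ (n + 1)) z := by
  induction n with
  | zero => simpa using h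
  | succ n ih => rw [pow_succ', mul_ap]; exact h.trans (hf.lt.2 ih)

lemma PL.pow_ne {f : G} (hf : PL f) {z : ℝ} (h : f z ≠ z) (n : ℕ) : (f ^ (n + 1)) z ≠ z := by
  rcases h.lt_or_gt with h | h
  · have := hf.inv.lt_pow (hf.lt_inv.2 h) n
    rw [inv_pow, (hf.pow _).lt_inv] at this
    exact this.ne
  · exact (hf.lt_pow h n).ne'

lemma PL.zpow_ne {f : G} (hf : PL f) {z : ℝ} (h : f z ≠ z) {n : ℤ} (hn : n ≠ 0) :
    (f ^ n) z ≠ z := by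
  cases n with
  | ofNat n =>
    obtain ⟨n, rfl⟩ := Nat.exists_eq_succ_of_ne_zero (show n ≠ 0 by simpa using hn)
    rw [Int.ofNat_eq_natCast, zpow_natCast]
    exact hf.pow_ne h n
  | negSucc n =>
    rw [zpow_negSucc]
    exact fun e => hf.pow_ne h n (by simpa using inv_fix e)

lemma PL.rs_eq_ls {f : G} (hf : PL f) {θ : ℝ} (h : ¬ Dy θ) : rs f θ = ls f θ := by
  rcases lt_or_ge θ 0 with h0 | h0
  · rw [rs_of_id (hf.idR (.inl h0)), ls_of_id (hf.idL (.inl h0.le))]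
  rcases le_or_gt 1 θ with h1 | h1
  · rw [rs_of_id (hf.idR (.inr h1)),
      ls_of_id (hf.idL (.inr (h1.lt_of_ne fun e => h (e ▸ dy_one))))]
  obtain ⟨ν, ν', a, b, c⟩ := hf.nodeR h0 h1
  rw [(a.RS b c).eq, (a.LS (b.lt_of_ne fun e => h (e ▸ dy_lo ν)) c.le).eq]

/-- Rational numbers. -/
def IsQ (x : ℝ) : Prop := ∃ q : ℚ, x = q

lemma isQ_pt (ν : ℕ × ℕ) : IsQ (pt ν 0) := ⟨ν.2 / 2 ^ ν.1, by simp [pt]⟩

lemma Dy.isQ {x : ℝ} (h : Dy x) : IsQ x := by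
  obtain ⟨ν, rfl⟩ := h
  exact isQ_pt ν

lemma isQ_zpow (n : ℤ) : IsQ (2 ^ n) := ⟨2 ^ n, by simp⟩

lemma Lin.isQ {f : G} {ν ν' : ℕ × ℕ} (h : Lin f ν ν') (hd : (ν.1 : ℤ) - ν'.1 ≠ 0) {x : ℝ}
    (h0 : pt ν 0 ≤ x) (h1 : x ≤ pt ν 1) (hx : f x = x) : IsQ x := by
  have e := h.affine le_rfl (pt_le.2 zero_le_one) h0 h1
  rw [hx, h.lo] at e
  obtain ⟨p, hp⟩ := isQ_pt ν
  obtain ⟨p', hp'⟩ := isQ_pt ν'
  have hne : (1 : ℝ) - 2 ^ ((ν.1 : ℤ) - ν'.1) ≠ 0 := fun e =>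
    hd (two_zpow_inj (by rw [zpow_zero]; linarith))
  refine ⟨(p' - 2 ^ ((ν.1 : ℤ) - ν'.1) * p) / (1 - 2 ^ ((ν.1 : ℤ) - ν'.1)), ?_⟩
  push_cast
  rw [eq_div_iff hne, ← hp, ← hp']
  linarith

lemma PL.isQ_rs {f : G} (hf : PL f) {θ : ℝ} (h : f θ = θ) (h0 : rs f θ ≠ 0) : IsQ θ := by
  obtain ⟨ν, ν', a, b, c⟩ := hf.nodeR (hf.mem_of_rs h0).1 (hf.mem_of_rs h0).2
  exact a.isQ ((a.RS b c).eq ▸ h0) b c.le h

lemma PL.isQ_ls {f : G} (hf : PL f) {θ : ℝ} (h : f θ = θ) (h0 : ls f θ ≠ 0) : IsQ θ := by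
  obtain ⟨ν, ν', a, b, c⟩ := hf.nodeL (hf.mem_of_ls h0).1 (hf.mem_of_ls h0).2
  exact a.isQ ((a.LS b c).eq ▸ h0) b.le c h

/-- Points just left of `θ` are moved. -/
lemma PL.movesL {f : G} (hf : PL f) {θ : ℝ} (h : f θ = θ → ls f θ ≠ 0) :
    EvL θ fun z => z ≠ θ → f z ≠ z := by
  rcases lt_trichotomy (f θ) θ with h1 | h1 | h1
  · obtain ⟨x, a, b⟩ := exists_between h1
    exact ⟨x, b, fun z c d _ => (((hf.le.2 d).trans_lt a).trans_le c).ne⟩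
  · refine (hf.LS θ).mono fun z hz hne e => h h1 (two_zpow_inj ?_)
    rw [e, h1] at hz
    exact mul_right_cancel₀ (sub_ne_zero.2 hne) (by rw [zpow_zero]; linarith)
  · obtain ⟨x, a, b⟩ := exists_between (hf.inv_lt.2 h1)
    exact ⟨x, b, fun z c d _ => (d.trans_lt (hf.inv_lt.1 (a.trans_le c))).ne'⟩

lemma PL.movesR {f : G} (hf : PL f) {θ : ℝ} (h1 : f θ = θ) (h : rs f θ ≠ 0) :
    EvR θ fun z => z ≠ θ → f z ≠ z := by
  refine (hf.RS θ).mono fun z hz hne e => h (two_zpow_inj ?_)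
  rw [e, h1] at hz
  exact mul_right_cancel₀ (sub_ne_zero.2 hne) (by rw [zpow_zero]; linarith)

/-- Iterating an affine contraction. -/
lemma pow_affine {g : G} {x y η σ : ℝ} (h : ∀ z, x ≤ z → z ≤ y → g z = η + σ * (z - η))
    (hx : x ≤ η) (hy : η ≤ y) (h0 : 0 ≤ σ) (h1 : σ ≤ 1) (m : ℕ) {z : ℝ} (a : x ≤ z) (b : z ≤ y) :
    (g ^ m) z = η + σ ^ m * (z - η) := by
  induction m with
  | zero => simp
  | succ m ih =>
    have p0 : 0 ≤ σ ^ m := by positivity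
    have p1 : σ ^ m ≤ 1 := pow_le_one₀ h0 h1
    rw [pow_succ', mul_ap, ih, h _ (by nlinarith) (by nlinarith)]
    ring

lemma exists_pow_mul_lt {σ ε : ℝ} (h1 : σ < 1) (c : ℝ) (hc : 0 < c) (hε : 0 < ε) :
    ∃ m : ℕ, σ ^ m * c < ε := by
  obtain ⟨m, hm⟩ := exists_pow_lt_of_lt_one (div_pos hε hc) h1
  exact ⟨m, (lt_div_iff₀ hc).1 hm⟩

/-- The identity to the right of `v`. -/
def SupL (g : G) (v : ℝ) : Prop := ∀ x ≥ v, g x = x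

/-- The identity to the left of `u`. -/
def SupR (g : G) (u : ℝ) : Prop := ∀ x ≤ u, g x = x

lemma SupL.conj {c g : G} (hc : PL c) {v : ℝ} (h : SupL g v) : SupL (c * g * c⁻¹) (c v) :=
  fun x hx => by rw [mul_ap, mul_ap, h _ (hc.le_inv.2 hx), ap_inv]

lemma SupR.conj {c g : G} (hc : PL c) {v : ℝ} (h : SupR g v) : SupR (c * g * c⁻¹) (c v) :=
  fun x hx => by rw [mul_ap, mul_ap, h _ (hc.inv_le.2 hx), ap_inv]

lemma SupL.mono {g : G} {v w : ℝ} (h : SupL g v) (hw : v ≤ w) : SupL g w :=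
  fun x hx => h x (hw.trans hx)

lemma SupR.mono {g : G} {v w : ℝ} (h : SupR g v) (hw : w ≤ v) : SupR g w :=
  fun x hx => h x (hx.trans hw)

open Ctx

variable [Ctx]

lemma cutL {h : G} (hh : h ∈ H) {θ x : ℝ} (hf : h θ = θ) (h0 : ls h θ = 0) (hx : x < θ)
    (hθ : 0 < θ) : ∃ v, Dy v ∧ x < v ∧ v < θ ∧ ∃ k ∈ H, (∀ z ≤ v, k z = h z) ∧ SupL k v := by
  obtain ⟨y, a, b⟩ := (pl hh).idL_of hf h0
  obtain ⟨v, hv, c, d⟩ := exists_dy (max_lt a hx) hθ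
  rw [max_lt_iff] at c
  exact ⟨v, hv, c.2, d, cut hh hv (b v c.1.le d.le)⟩

lemma cutR {h : G} (hh : h ∈ H) {θ y : ℝ} (hf : h θ = θ) (h0 : rs h θ = 0) (hy : θ < y)
    (hθ : 0 ≤ θ) : ∃ u, Dy u ∧ θ < u ∧ u < y ∧ ∃ k ∈ H, SupR k u ∧ ∀ z ≥ u, k z = h z := by
  obtain ⟨x, a, b⟩ := (pl hh).idR_of hf h0
  obtain ⟨v, hv, c, d⟩ := exists_dy (lt_min a hy) (hθ.trans_lt (lt_min a hy))
  rw [lt_min_iff] at d
  exact ⟨v, hv, c, d.2, cut' hh hv (b v c.le d.1.le)⟩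

/-- Cutting near an irrational fixed point. -/
lemma cutI {h : G} (hh : h ∈ H) {θ x : ℝ} (hf : h θ = θ) (hq : ¬ IsQ θ) (hx : x < θ)
    (hθ : 0 < θ) : ∃ v, Dy v ∧ x < v ∧ v < θ ∧ ∃ k ∈ H, (∀ z ≤ v, k z = h z) ∧ SupL k v :=
  cutL hh hf (by_contra fun e => hq ((pl hh).isQ_ls hf e)) hx hθ

/-- Linear equivalence of nodes. -/
def NE (ν ν' : ℕ × ℕ) : Prop := ∃ h ∈ H, Lin h ν ν'

/-- Every element maps the node linearly onto a node. -/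
def Stuck (ν : ℕ × ℕ) : Prop := ∀ h ∈ H, ∃ ν', Lin h ν ν'

lemma Stuck.lin {ν ν' : ℕ × ℕ} (h : Stuck ν) {f : G} (hf : f ∈ H) (hl : Lin f ν ν') :
    Stuck ν' := fun g hg => by
  obtain ⟨ν'', h'⟩ := h (g * f) (mul_mem hg hf)
  exact ⟨ν'', by simpa using hl.inv.mul h'⟩

lemma exists_bound : ∃ N : ℕ, ∀ ν, Valid ν → ¬ Stuck ν → ∃ ν₀, ν₀.1 < N ∧ Valid ν₀ ∧ NE ν ν₀ := by
  have : ∀ l' : List G, (∀ g ∈ l', PL g) → ∃ M, ∀ g ∈ l', Deep g M ∧ Deep g⁻¹ M := by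
    intro l'
    induction l' with
    | nil => simp
    | cons g l' ih =>
      intro h
      obtain ⟨M, hM⟩ := ih fun x hx => h x (by simp [hx])
      obtain ⟨M₁, h₁⟩ := (h g (by simp)).deep
      obtain ⟨M₂, h₂⟩ := (h g (by simp)).deepInv
      refine ⟨M + M₁ + M₂, fun x hx => ?_⟩
      rcases List.mem_cons.1 hx with rfl | hx
      · exact ⟨h₁.mono (by omega), h₂.mono (by omega)⟩
      · exact ⟨(hM x hx).1.mono (by omega), (hM x hx).2.mono (by omega)⟩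
  obtain ⟨M, hM⟩ := this l fun g hg => pl (gen ▸ Subgroup.subset_closure hg)
  refine ⟨M, fun ν hν hs => by_contra fun hc => hs fun h hh => ?_⟩
  push Not at hc
  have dp : ∀ ν', NE ν ν' → Valid ν' ∧ M ≤ ν'.1 := fun ν' h' => by
    obtain ⟨g, hg, e⟩ := h'
    have := (pl hg).valid hν e
    exact ⟨this, not_lt.1 fun c => hc ν' c this ⟨g, hg, e⟩⟩
  suffices ∀ ν', NE ν ν' → ∃ ν'', Lin h ν' ν'' from this ν ⟨1, one_mem _, Lin.one ν⟩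
  rw [gen] at hh
  induction hh using Subgroup.closure_induction'' with
  | mem x hx =>
    intro ν' h'
    obtain ⟨ν'', -, e⟩ := (hM x hx).1 ν' (dp ν' h').1 (dp ν' h').2
    exact ⟨ν'', e⟩
  | inv_mem x hx =>
    intro ν' h'
    obtain ⟨ν'', -, e⟩ := (hM x hx).2 ν' (dp ν' h').1 (dp ν' h').2
    exact ⟨ν'', e⟩
  | one => exact fun ν' _ => ⟨ν', Lin.one _⟩
  | mul x y _ hy ix iy =>
    rintro ν' ⟨g, hg, e⟩
    obtain ⟨ν₁, e₁⟩ := iy ν' ⟨g, hg, e⟩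
    obtain ⟨ν₂, e₂⟩ := ix ν₁ ⟨y * g, mul_mem (gen ▸ hy) hg, e.mul e₁⟩
    exact ⟨ν₂, e₁.mul e₂⟩

/-- A bound for the depth of representatives of the nodes which are not stuck. -/
noncomputable def NB : ℕ := exists_bound.choose

/-- The finite set of small nodes. -/
def Small : Set (ℕ × ℕ) := {ν | ν.1 < NB ∧ Valid ν}

lemma small_finite : Small.Finite := by
  refine ((Set.finite_Iio NB).prod (Set.finite_Iio (2 ^ NB))).subset fun ν h => ⟨h.1, ?_⟩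
  exact h.2.trans_le (Nat.pow_le_pow_right two_pos h.1.le)

lemma exists_small_ne {ν : ℕ × ℕ} (h : Valid ν) (h' : ¬ Stuck ν) : ∃ ν₀ ∈ Small, NE ν ν₀ :=
  let ⟨ν₀, a, b, c⟩ := exists_bound.choose_spec ν h h'
  ⟨ν₀, ⟨a, b⟩, c⟩

/-- The pumping lemma. -/
lemma pump {D : ℕ} {P : ℕ × ℕ → Prop}
    (h : ∀ d ≥ D, ∃ i, Valid (d, i) ∧ ¬ Stuck (d, i) ∧ P (d, i)) :
    ∃ ν ν', D ≤ ν.1 ∧ ν.1 < ν'.1 ∧ P ν ∧ P ν' ∧ NE ν ν' := by
  choose i h1 h2 h3 using fun n => h (D + n) (by omega)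
  choose f f1 g f2 f3 using fun n => exists_small_ne (h1 n) (h2 n)
  obtain ⟨m, n, hmn, e⟩ := small_finite.exists_lt_map_eq_of_forall_mem f1
  exact ⟨_, _, by simp, by simpa, h3 m, h3 n, _, mul_mem (inv_mem (f2 n)) (f2 m),
    (f3 m).mul (e ▸ (f3 n).inv)⟩

lemma not_stuck_of_id {g : G} (hg : g ∈ H) {ν : ℕ × ℕ} {x y z : ℝ} (hxy : x < y)
    (hx : pt ν 0 ≤ x) (hy : y ≤ pt ν 1) (gx : g x = x) (gy : g y = y) (z0 : pt ν 0 ≤ z)
    (z1 : z ≤ pt ν 1) (hz : g z ≠ z) : ¬ Stuck ν := fun h => by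
  obtain ⟨ν', e⟩ := h g hg
  have e1 := e.affine hx (hxy.le.trans hy) (hx.trans hxy.le) hy
  have e2 := e.affine hx (hxy.le.trans hy) z0 z1
  rw [gx, gy] at e1
  have : (2 : ℝ) ^ ((ν.1 : ℤ) - ν'.1) = 1 :=
    mul_right_cancel₀ (sub_pos.2 hxy).ne' (by linarith)
  rw [this, gx] at e2
  exact hz (by linarith)

lemma not_stuck_rs {g : G} (hg : g ∈ H) {θ : ℝ} (hf : g θ = θ) (h0 : rs g θ ≠ 0) {ν : ℕ × ℕ}
    (a : pt ν 0 ≤ θ) (b : θ < pt ν 1) : ¬ Stuck ν := by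
  wlog hp : 0 < rs g θ generalizing g
  · exact this (inv_mem hg) (inv_fix hf) (by rw [rs_inv' (pl hg) hf]; omega)
      (by rw [rs_inv' (pl hg) hf]; omega)
  induction hd : ν.1 using Nat.strong_induction_on generalizing ν with
  | _ d ih =>
    intro hs
    obtain ⟨ν', e⟩ := hs g hg
    have := (e.RS a b).eq
    refine ih ν'.1 (by omega) ?_ ?_ rfl (hs.lin hg e)
    · rw [← e.lo, ← hf]
      exact (pl hg).le.2 a
    · rw [← e.hi, ← hf]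
      exact (pl hg).lt.2 b

lemma not_stuck_ls {g : G} (hg : g ∈ H) {θ : ℝ} (hf : g θ = θ) (h0 : ls g θ ≠ 0) {ν : ℕ × ℕ}
    (a : pt ν 0 < θ) (b : θ ≤ pt ν 1) : ¬ Stuck ν := by
  wlog hp : 0 < ls g θ generalizing g
  · exact this (inv_mem hg) (inv_fix hf) (by rw [ls_inv' (pl hg) hf]; omega)
      (by rw [ls_inv' (pl hg) hf]; omega)
  induction hd : ν.1 using Nat.strong_induction_on generalizing ν with
  | _ d ih =>
    intro hs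
    obtain ⟨ν', e⟩ := hs g hg
    have := (e.LS a b).eq
    refine ih ν'.1 (by omega) ?_ ?_ rfl (hs.lin hg e)
    · rw [← e.lo, ← hf]
      exact (pl hg).lt.2 a
    · rw [← e.hi, ← hf]
      exact (pl hg).le.2 b

end Pool.Agent.MP_337e3e_al.H98
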