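import Mathlib

/-!
# Dyadic piecewise linear maps of the unit interval
-/

namespace Pool.Agent.MP_337e3e_al.H98

open Set

/-- Permutations of the line. -/
abbrev G := Equiv.Perm ℝ

/-- A node is a pair (depth, index); `pt ν s` is the point of relative position `s`. -/
noncomputable def pt (ν : ℕ × ℕ) (s : ℝ) : ℝ := (ν.2 + s) / 2 ^ ν.1

/-- The node lies in the unit interval. -/
def Valid (ν : ℕ × ℕ) : Prop := ν.2 < 2 ^ ν.1

/-- `f` maps the node `ν` linearly onto the node `ν'`. -/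
def Lin (f : G) (ν ν' : ℕ × ℕ) : Prop := ∀ s ∈ Icc (0 : ℝ) 1, f (pt ν s) = pt ν' s

/-- All deep nodes are mapped linearly onto nodes. -/
def Deep (f : G) (M : ℕ) : Prop :=
  ∀ ν, Valid ν → M ≤ ν.1 → ∃ ν' : ℕ × ℕ, ν.1 ≤ ν'.1 + M ∧ Lin f ν ν'

/-- Nonnegative dyadic rationals. -/
def Dy (x : ℝ) : Prop := ∃ ν : ℕ × ℕ, x = pt ν 0

lemma inv_ap (f : G) (x : ℝ) : f⁻¹ (f x) = x := by simp

lemma ap_inv (f : G) (x : ℝ) : f (f⁻¹ x) = x := by simp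

lemma mul_ap (f g : G) (x : ℝ) : (f * g) x = f (g x) := rfl

lemma pt_strictMono (ν : ℕ × ℕ) : StrictMono (pt ν) := fun s t h => by
  unfold pt
  gcongr

lemma pt_lt {ν : ℕ × ℕ} {s t : ℝ} : pt ν s < pt ν t ↔ s < t := (pt_strictMono ν).lt_iff_lt

lemma pt_le {ν : ℕ × ℕ} {s t : ℝ} : pt ν s ≤ pt ν t ↔ s ≤ t := (pt_strictMono ν).le_iff_le

lemma pt_add (ν : ℕ × ℕ) (s t : ℝ) : pt ν (s + t) = pt ν s + t / 2 ^ ν.1 := by
  unfold pt
  ring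

lemma exists_pt (ν : ℕ × ℕ) (x : ℝ) : ∃ s, x = pt ν s :=
  ⟨x * 2 ^ ν.1 - ν.2, by unfold pt; field_simp; ring⟩

lemma exists_pt_mem {ν : ℕ × ℕ} {x : ℝ} (h0 : pt ν 0 ≤ x) (h1 : x ≤ pt ν 1) :
    ∃ s ∈ Icc (0 : ℝ) 1, x = pt ν s := by
  obtain ⟨s, rfl⟩ := exists_pt ν x
  exact ⟨s, ⟨pt_le.1 h0, pt_le.1 h1⟩, rfl⟩

lemma pt_nonneg (ν : ℕ × ℕ) : 0 ≤ pt ν 0 := by
  unfold pt
  positivity

lemma valid_iff {ν : ℕ × ℕ} : Valid ν ↔ pt ν 1 ≤ 1 := by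
  unfold Valid pt
  rw [div_le_one (by positivity)]
  exact_mod_cast Nat.lt_iff_add_one_le

lemma pt_one (ν : ℕ × ℕ) : pt ν 1 = pt (ν.1, ν.2 + 1) 0 := by simp [pt]

lemma dy_lo (ν : ℕ × ℕ) : Dy (pt ν 0) := ⟨ν, rfl⟩

lemma dy_hi (ν : ℕ × ℕ) : Dy (pt ν 1) := ⟨_, pt_one ν⟩

lemma dy_zero : Dy 0 := ⟨(0, 0), by simp [pt]⟩

lemma dy_one : Dy 1 := ⟨(0, 1), by simp [pt]⟩

lemma Dy.nonneg {x : ℝ} (h : Dy x) : 0 ≤ x := by
  obtain ⟨ν, rfl⟩ := h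
  exact pt_nonneg ν

/-- A dyadic point is a grid point of every large depth. -/
lemma Dy.grid {x : ℝ} (h : Dy x) : ∃ D, ∀ d ≥ D, ∃ i, x = pt (d, i) 0 := by
  obtain ⟨ν, rfl⟩ := h
  refine ⟨ν.1, fun d hd => ?_⟩
  obtain ⟨e, rfl⟩ := Nat.exists_eq_add_of_le hd
  refine ⟨ν.2 * 2 ^ e, ?_⟩
  simp only [pt, pow_add]
  push_cast
  field_simp
  ring

/-- The node of depth `d` containing `x`, closed on the left. -/
lemma exists_node_right {x : ℝ} (h0 : 0 ≤ x) (h1 : x < 1) (d : ℕ) :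
    ∃ i, Valid (d, i) ∧ pt (d, i) 0 ≤ x ∧ x < pt (d, i) 1 := by
  have hp : (0 : ℝ) < 2 ^ d := by positivity
  refine ⟨⌊x * 2 ^ d⌋₊, ?_, ?_, ?_⟩
  · refine (Nat.floor_lt (by positivity)).2 ?_
    push_cast
    nlinarith
  · simp only [pt, add_zero]
    rw [div_le_iff₀ hp]
    exact Nat.floor_le (by positivity)
  · simp only [pt]
    rw [lt_div_iff₀ hp]
    exact Nat.lt_floor_add_one _

/-- The node of depth `d` containing `x`, closed on the right. -/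
lemma exists_node_left {x : ℝ} (h0 : 0 < x) (h1 : x ≤ 1) (d : ℕ) :
    ∃ i, Valid (d, i) ∧ pt (d, i) 0 < x ∧ x ≤ pt (d, i) 1 := by
  have hp : (0 : ℝ) < 2 ^ d := by positivity
  obtain ⟨i, hi⟩ : ∃ i, ⌈x * 2 ^ d⌉₊ = i + 1 :=
    Nat.exists_eq_succ_of_ne_zero (Nat.ceil_pos.2 (by positivity)).ne'
  refine ⟨i, ?_, ?_, ?_⟩
  · have : ⌈x * 2 ^ d⌉₊ ≤ 2 ^ d := Nat.ceil_le.2 (by push_cast; nlinarith)
    unfold Valid
    simp only
    omega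
  · simp only [pt, add_zero]
    rw [div_lt_iff₀ hp]
    exact Nat.lt_ceil.1 (by omega)
  · simp only [pt]
    rw [le_div_iff₀ hp]
    have := Nat.le_ceil (x * 2 ^ d)
    rw [hi] at this
    exact_mod_cast this

lemma exists_small {ε : ℝ} (h : 0 < ε) : ∃ D : ℕ, ∀ d ≥ D, 1 / 2 ^ d < ε := by
  obtain ⟨D, hD⟩ := exists_pow_lt_of_lt_one h (show (1 / 2 : ℝ) < 1 by norm_num)
  refine ⟨D, fun d hd => lt_of_le_of_lt ?_ hD⟩
  rw [← one_div_pow]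
  exact pow_le_pow_of_le_one (by norm_num) (by norm_num) hd

lemma hi_eq (ν : ℕ × ℕ) : pt ν 1 = pt ν 0 + 1 / 2 ^ ν.1 := by rw [← pt_add, zero_add]

lemma exists_dy {x y : ℝ} (h : x < y) (hy : 0 < y) : ∃ u, Dy u ∧ x < u ∧ u < y := by
  rcases lt_or_ge x 0 with hx | hx
  · exact ⟨0, dy_zero, hx, hy⟩
  obtain ⟨D, hD⟩ := exists_small (sub_pos.2 h)
  have hp : (0 : ℝ) < 2 ^ D := by positivity
  refine ⟨pt (D, ⌊x * 2 ^ D⌋₊) 1, dy_hi _, ?_, ?_⟩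
  · simp only [pt]
    rw [lt_div_iff₀ hp]
    exact Nat.lt_floor_add_one _
  · have h1 : pt (D, ⌊x * 2 ^ D⌋₊) 0 ≤ x := by
      simp only [pt, add_zero]
      rw [div_le_iff₀ hp]
      exact Nat.floor_le (by positivity)
    have := hD D le_rfl
    rw [hi_eq]
    linarith

lemma Lin.lo {f : G} {ν ν' : ℕ × ℕ} (h : Lin f ν ν') : f (pt ν 0) = pt ν' 0 := h 0 (by simp)

lemma Lin.hi {f : G} {ν ν' : ℕ × ℕ} (h : Lin f ν ν') : f (pt ν 1) = pt ν' 1 := h 1 (by simp)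

lemma Lin.one (ν : ℕ × ℕ) : Lin 1 ν ν := fun _ _ => rfl

lemma Lin.mul {f g : G} {ν ν' ν'' : ℕ × ℕ} (h : Lin f ν ν') (h' : Lin g ν' ν'') :
    Lin (g * f) ν ν'' := fun s hs => by rw [mul_ap, h s hs, h' s hs]

lemma Lin.inv {f : G} {ν ν' : ℕ × ℕ} (h : Lin f ν ν') : Lin f⁻¹ ν' ν := fun s hs => by
  rw [← h s hs, inv_ap]

/-- The affine formula on a node. -/
lemma Lin.affine {f : G} {ν ν' : ℕ × ℕ} (h : Lin f ν ν') {x y : ℝ} (hx0 : pt ν 0 ≤ x)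
    (hx1 : x ≤ pt ν 1) (hy0 : pt ν 0 ≤ y) (hy1 : y ≤ pt ν 1) :
    f y = f x + 2 ^ ((ν.1 : ℤ) - ν'.1) * (y - x) := by
  obtain ⟨s, hs, rfl⟩ := exists_pt_mem hx0 hx1
  obtain ⟨t, ht, rfl⟩ := exists_pt_mem hy0 hy1
  rw [h s hs, h t ht, zpow_sub₀ two_ne_zero, zpow_natCast, zpow_natCast]
  unfold pt
  field_simp
  ring

lemma lin_of_affine {f : G} {ν ν' : ℕ × ℕ} {μ : ℝ} (h0 : f (pt ν 0) = pt ν' 0)
    (h1 : f (pt ν 1) = pt ν' 1)
    (h : ∀ x, pt ν 0 ≤ x → x ≤ pt ν 1 → f x = f (pt ν 0) + μ * (x - pt ν 0)) : Lin f ν ν' := by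
  intro s hs
  have e1 := h _ (pt_le.2 zero_le_one) le_rfl
  rw [h _ (pt_le.2 hs.1) (pt_le.2 hs.2), h0]
  rw [h0, h1, hi_eq, hi_eq] at e1
  have e2 := pt_add ν 0 s
  have e3 := pt_add ν' 0 s
  rw [zero_add] at e2 e3
  rw [e2, e3]
  linear_combination (-s) * e1

/-- Descendants are mapped to descendants. -/
lemma Lin.sub {f : G} {ν ν' : ℕ × ℕ} (h : Lin f ν ν') {e j : ℕ} (hj : j < 2 ^ e) :
    Lin f (ν.1 + e, ν.2 * 2 ^ e + j) (ν'.1 + e, ν'.2 * 2 ^ e + j) := by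
  intro s hs
  have hp : (0 : ℝ) < 2 ^ e := by positivity
  have e1 : ∀ ν : ℕ × ℕ, pt (ν.1 + e, ν.2 * 2 ^ e + j) s = pt ν ((j + s) / 2 ^ e) := by
    intro ν
    simp only [pt, pow_add]
    push_cast
    field_simp
    ring
  rw [e1, e1]
  refine h _ ⟨div_nonneg (by linarith [hs.1]) hp.le, (div_le_one hp).2 ?_⟩
  have : (j : ℝ) + 1 ≤ 2 ^ e := by exact_mod_cast hj
  linarith [hs.2]

/-- The group of dyadic piecewise linear maps. -/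
structure PL (f : G) : Prop where
  mono : StrictMono f
  left : ∀ x ≤ 0, f x = x
  right : ∀ x ≥ 1, f x = x
  deep : ∃ M, Deep f M
  deepInv : ∃ M, Deep f⁻¹ M

lemma valid_of_lin {f : G} (hm : StrictMono f) (h1 : f 1 = 1) {ν ν' : ℕ × ℕ} (hν : Valid ν)
    (h : Lin f ν ν') : Valid ν' := by
  rw [valid_iff] at hν ⊢
  rw [← h.hi]
  exact (hm.monotone hν).trans_eq h1

lemma PL.valid {f : G} (hf : PL f) {ν ν' : ℕ × ℕ} (hν : Valid ν) (h : Lin f ν ν') : Valid ν' :=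
  valid_of_lin hf.mono (hf.right 1 le_rfl) hν h

lemma Deep.mul {f g : G} (hm : StrictMono f) (h1 : f 1 = 1) {M M' : ℕ} (h : Deep f M)
    (h' : Deep g M') : Deep (g * f) (M + M') := by
  intro ν hν hd
  obtain ⟨ν', a1, a2⟩ := h ν hν (by omega)
  obtain ⟨ν'', b1, b2⟩ := h' ν' (valid_of_lin hm h1 hν a2) (by omega)
  exact ⟨ν'', by omega, a2.mul b2⟩

lemma Deep.mono {f : G} {M M' : ℕ} (h : Deep f M) (hM : M ≤ M') : Deep f M' := by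
  intro ν hν hd
  obtain ⟨ν', a1, a2⟩ := h ν hν (by omega)
  exact ⟨ν', by omega, a2⟩

lemma strictMono_inv {f : G} (h : StrictMono f) : StrictMono (f⁻¹ : G) := fun x y hxy => by
  rw [← h.lt_iff_lt, ap_inv, ap_inv]
  exact hxy

lemma inv_fix {f : G} {x : ℝ} (h : f x = x) : f⁻¹ x = x := by
  rw [Equiv.Perm.inv_eq_iff_eq, h]

lemma PL.one : PL 1 :=
  ⟨strictMono_id, fun _ _ => rfl, fun _ _ => rfl, ⟨0, fun ν _ _ => ⟨ν, le_rfl, Lin.one ν⟩⟩,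
    ⟨0, fun ν _ _ => ⟨ν, le_rfl, Lin.one ν⟩⟩⟩

lemma PL.inv {f : G} (h : PL f) : PL f⁻¹ :=
  ⟨strictMono_inv h.mono, fun x hx => inv_fix (h.left x hx), fun x hx => inv_fix (h.right x hx),
    h.deepInv, by simpa using h.deep⟩

lemma PL.mul {f g : G} (hf : PL f) (hg : PL g) : PL (f * g) := by
  obtain ⟨M, hM⟩ := hf.deep
  obtain ⟨M', hM'⟩ := hg.deep
  obtain ⟨N, hN⟩ := hf.deepInv
  obtain ⟨N', hN'⟩ := hg.deepInv
  refine ⟨hf.mono.comp hg.mono, fun x hx => ?_, fun x hx => ?_,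
    ⟨_, hM'.mul hg.mono (hg.right 1 le_rfl) hM⟩,
    ⟨_, by rw [mul_inv_rev]; exact hN.mul hf.inv.mono (hf.inv.right 1 le_rfl) hN'⟩⟩
  · rw [mul_ap, hg.left x hx, hf.left x hx]
  · rw [mul_ap, hg.right x hx, hf.right x hx]

lemma PL.lt {f : G} (hf : PL f) {x y : ℝ} : f x < f y ↔ x < y := hf.mono.lt_iff_lt

lemma PL.le {f : G} (hf : PL f) {x y : ℝ} : f x ≤ f y ↔ x ≤ y := hf.mono.le_iff_le

lemma PL.lt_one {f : G} (hf : PL f) {x : ℝ} : f x < 1 ↔ x < 1 := by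
  have := hf.lt (x := x) (y := 1)
  rwa [hf.right 1 le_rfl] at this

lemma PL.le_one {f : G} (hf : PL f) {x : ℝ} : f x ≤ 1 ↔ x ≤ 1 := by
  have := hf.le (x := x) (y := 1)
  rwa [hf.right 1 le_rfl] at this

lemma PL.pos {f : G} (hf : PL f) {x : ℝ} : 0 < f x ↔ 0 < x := by
  have := hf.lt (x := 0) (y := x)
  rwa [hf.left 0 le_rfl] at this

lemma PL.nonneg {f : G} (hf : PL f) {x : ℝ} : 0 ≤ f x ↔ 0 ≤ x := by
  have := hf.le (x := 0) (y := x)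
  rwa [hf.left 0 le_rfl] at this

lemma PL.continuous {f : G} (hf : PL f) : Continuous f :=
  (hf.mono.orderIsoOfSurjective f f.surjective).continuous

lemma PL.dy {f : G} (hf : PL f) {x : ℝ} (hx : Dy x) : Dy (f x) := by
  rcases le_or_gt 1 x with h | h
  · rwa [hf.right x h]
  obtain ⟨M, hM⟩ := hf.deep
  obtain ⟨D, hD⟩ := hx.grid
  obtain ⟨i, rfl⟩ := hD (max D M) (le_max_left _ _)
  have hv : Valid (max D M, i) := by
    simp only [pt, add_zero] at h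
    rw [div_lt_one (by positivity)] at h
    unfold Valid
    exact_mod_cast h
  obtain ⟨ν', -, h'⟩ := hM _ hv (le_max_right _ _)
  exact ⟨ν', h'.lo⟩

/-- A dyadic point in the interior of a node is not fixed by a map changing the depth. -/
lemma Lin.not_dy {f : G} {ν ν' : ℕ × ℕ} (h : Lin f ν ν') (hd : ν.1 ≠ ν'.1) {x : ℝ}
    (h0 : pt ν 0 < x) (h1 : x < pt ν 1) (hx : f x = x) : ¬ Dy x := by
  wlog hlt : ν.1 < ν'.1 generalizing f ν ν'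
  · obtain ⟨s, hs, rfl⟩ := exists_pt_mem h0.le h1.le
    have e : pt ν s = pt ν' s := hx.symm.trans (h s hs)
    refine this h.inv hd.symm ?_ ?_ (inv_fix hx) (by omega)
    · rw [e, pt_lt]
      exact pt_lt.1 h0
    · rw [e, pt_lt]
      exact pt_lt.1 h1
  intro hdy
  obtain ⟨s, hs, rfl⟩ := exists_pt_mem h0.le h1.le
  have e : pt ν s = pt ν' s := hx.symm.trans (h s hs)
  obtain ⟨k, hk⟩ := Nat.exists_eq_add_of_lt hlt
  obtain ⟨D, hD⟩ := hdy.grid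
  obtain ⟨i, hi⟩ := hD (ν.1 + D) (by omega)
  have e1 : s * (2 ^ (k + 1) - 1) = ν'.2 - ν.2 * 2 ^ (k + 1) := by
    simp only [pt, hk, add_assoc, pow_add] at e
    field_simp at e
    rw [pow_add]
    linear_combination e
  have e2 : s * 2 ^ D = i - ν.2 * 2 ^ D := by
    simp only [pt, pow_add, add_zero] at hi
    field_simp at hi
    linear_combination hi
  have hco : IsCoprime ((2 : ℤ) ^ (k + 1) - 1) (2 ^ D) :=
    IsCoprime.pow_right ⟨-1, 2 ^ k, by ring⟩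
  obtain ⟨u, v, huv⟩ := hco
  have e3 : s = ((u * (ν'.2 - ν.2 * 2 ^ (k + 1)) + v * (i - ν.2 * 2 ^ D) : ℤ) : ℝ) := by
    have : (u : ℝ) * (2 ^ (k + 1) - 1) + v * 2 ^ D = 1 := by exact_mod_cast huv
    push_cast
    rw [← e1, ← e2]
    linear_combination (-s) * this
  have a0 := pt_lt.1 h0
  have a1 := pt_lt.1 h1
  rw [e3] at a0 a1
  have b0 : (0 : ℤ) < u * (ν'.2 - ν.2 * 2 ^ (k + 1)) + v * (i - ν.2 * 2 ^ D) := by exact_mod_cast a0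
  have b1 : u * (ν'.2 - ν.2 * 2 ^ (k + 1)) + v * (i - ν.2 * 2 ^ D) < 1 := by exact_mod_cast a1
  omega

end Pool.Agent.MP_337e3e_al.H98
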