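import Pool.Agent.MP_337e3e_al.H98.Basic

/-!
# The two generators generate all dyadic piecewise linear maps; cutting at dyadic fixed points
-/

namespace Pool.Agent.MP_337e3e_al.H98

open Set

/-- The data of the problem: the generators and a closed finitely generated subgroup. -/
class Ctx where
  a : G
  b : G
  ha : ∀ x : ℝ, a x = if x < 0 then x else if x ≤ 1/2 then x/2 else if x ≤ 3/4 then x - 1/4
        else if x ≤ 1 then 2*x - 1 else x
  hb : ∀ x : ℝ, b x = if x ≤ 1/2 then x else if x ≤ 3/4 then x/2 + 1/4 else if x ≤ 7/8 then x - 1/8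
        else if x ≤ 1 then 2*x - 1 else x
  l : List G
  H : Subgroup G
  gen : H = Subgroup.closure {g : G | g ∈ l}
  le : H ≤ Subgroup.closure ({a, b} : Set G)
  closed : ∀ f ∈ Subgroup.closure ({a, b} : Set G),
        (∃ n : ℕ, ∃ t : ℕ → ℝ, t 0 = 0 ∧ t n = 1 ∧ (∀ i < n, t i < t (i+1)) ∧
          ∀ i < n, ∃ h ∈ H, ∀ x ∈ Set.Icc (t i) (t (i+1)), f x = h x) → f ∈ H

open Ctx

lemma deep_of_level {f : G} {M : ℕ} (h : ∀ i < 2 ^ M, ∃ ν', Lin f (M, i) ν') : Deep f M := by
  rintro ⟨d, i⟩ hν hd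
  obtain ⟨e, rfl⟩ := Nat.exists_eq_add_of_le hd
  have hp : 0 < 2 ^ e := by positivity
  obtain ⟨ν', h'⟩ := h (i / 2 ^ e) (by
    rw [Nat.div_lt_iff_lt_mul hp, ← pow_add]
    exact hν)
  have := h'.sub (Nat.mod_lt i hp)
  simp only [Nat.div_add_mod'] at this
  exact ⟨_, by simp only; omega, this⟩

/-- Position of the leaves of the right vine with `n + 1` leaves. -/
noncomputable def vine (n k : ℕ) (s : ℝ) : ℝ :=
  if k < n then 1 - (2 - s) / 2 ^ (k + 1) else 1 - (1 - s) / 2 ^ n

/-- The inverse of the standard generator supported on `[1 - c, 1]`. -/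
def Rot (c : ℝ) (y : G) : Prop :=
  (∀ z ≤ 1 - c, y z = z) ∧ (∀ z, 1 - c ≤ z → z ≤ 1 - 3 * c / 4 → y z = 2 * z - (1 - c)) ∧
    (∀ z, 1 - 3 * c / 4 ≤ z → z ≤ 1 - c / 2 → y z = z + c / 4) ∧
    (∀ z, 1 - c / 2 ≤ z → z ≤ 1 → y z = (z + 1) / 2)

/-- A partition of the unit interval into `n + 1` nodes. -/
def Chain (n : ℕ) (P : ℕ → ℕ × ℕ) : Prop :=
  pt (P 0) 0 = 0 ∧ pt (P n) 1 = 1 ∧ ∀ k < n, pt (P k) 1 = pt (P (k + 1)) 0

lemma pt_one_pos (ν : ℕ × ℕ) : 0 < pt ν 1 := (pt_nonneg ν).trans_lt (pt_lt.2 zero_lt_one)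

lemma grid_eq {d d' i j : ℕ} (hd : d' ≤ d) (h : pt (d, i) 0 = pt (d', j) 0) :
    i = j * 2 ^ (d - d') := by
  obtain ⟨e, rfl⟩ := Nat.exists_eq_add_of_le hd
  simp only [pt, pow_add, add_zero] at h
  field_simp at h
  rw [Nat.add_sub_cancel_left]
  exact_mod_cast h.trans (mul_comm _ _)

lemma grid_odd {d d' i j : ℕ} (hd : d' ≤ d) (h : pt (d, i) 0 = pt (d', j) 0) (hi : i % 2 = 1) :
    d' = d ∧ j = i := by
  have := grid_eq hd h
  rcases Nat.eq_zero_or_pos (d - d') with h0 | h0
  · rw [h0] at this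
    omega
  · obtain ⟨e, he⟩ := Nat.exists_eq_succ_of_ne_zero h0.ne'
    rw [he, pow_succ, ← mul_assoc] at this
    omega

lemma Chain.siblings {n : ℕ} {P : ℕ → ℕ × ℕ} (h : Chain (n + 1) P) :
    ∃ k ≤ n, ∃ d i, P k = (d + 1, 2 * i) ∧ P (k + 1) = (d + 1, 2 * i + 1) := by
  obtain ⟨h0, h1, h2⟩ := h
  obtain ⟨k, hk, hmax⟩ := (Finset.range (n + 2)).exists_max_image (fun k => (P k).1) (by simp)
  simp only [Finset.mem_range] at hk hmax
  have hlast : 0 < pt (P (n + 1)) 0 := (h2 n (by omega)) ▸ pt_one_pos _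
  obtain ⟨d, hd⟩ : ∃ d, (P k).1 = d + 1 := by
    refine Nat.exists_eq_succ_of_ne_zero fun hz => ?_
    have e : (P (n + 1)).1 = 0 := by have := hmax (n + 1) (by omega); omega
    simp only [pt, e, pow_zero, div_one, add_zero] at h1 hlast
    linarith
  rcases Nat.mod_two_eq_zero_or_one (P k).2 with hi | hi
  · have hkn : k ≤ n := by
      by_contra hc
      obtain rfl : k = n + 1 := by omega
      rw [pt_one] at h1
      have := grid_odd (Nat.zero_le _) (h1.trans (show (1 : ℝ) = pt (0, 1) 0 by simp [pt]))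
        (by omega)
      omega
    have e := h2 k (by omega)
    rw [pt_one] at e
    have := grid_odd (hmax (k + 1) (by omega)) e (by omega)
    exact ⟨k, hkn, d, (P k).2 / 2, Prod.ext hd (by simp only; omega),
      Prod.ext (by simp only; omega) (by simp only; omega)⟩
  · obtain ⟨k, rfl⟩ : ∃ j, k = j + 1 := by
      refine Nat.exists_eq_succ_of_ne_zero fun hz => ?_
      subst hz
      have := grid_odd (Nat.zero_le _) (h0.trans (show (0 : ℝ) = pt (0, 0) 0 by simp [pt])) hi
      omega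
    have e := h2 k (by omega)
    rw [pt_one] at e
    have := grid_odd (hmax k (by omega)) e.symm hi
    exact ⟨k, by omega, d, (P (k + 1)).2 / 2, Prod.ext (by simp only; omega) (by simp only; omega),
      Prod.ext hd (by simp only; omega)⟩

lemma pt_left (d i : ℕ) (s : ℝ) : pt (d + 1, 2 * i) s = pt (d, i) (s / 2) := by
  simp only [pt, pow_succ]
  push_cast
  field_simp

lemma pt_right (d i : ℕ) (s : ℝ) : pt (d + 1, 2 * i + 1) s = pt (d, i) ((1 + s) / 2) := by
  simp only [pt, pow_succ]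
  push_cast
  field_simp
  ring

variable [Ctx]

/-- The ambient group. -/
def FF : Subgroup G := Subgroup.closure ({a, b} : Set G)

lemma a_mem : a ∈ FF := Subgroup.subset_closure (by simp)

lemma b_mem : b ∈ FF := Subgroup.subset_closure (by simp)

lemma ha' (x : ℝ) : a⁻¹ x = if x < 0 then x else if x ≤ 1/4 then 2 * x else if x ≤ 1/2 then x + 1/4
    else if x ≤ 1 then (x + 1) / 2 else x := by
  rw [Equiv.Perm.inv_eq_iff_eq, ha]
  split_ifs <;> linarith

lemma hb' (x : ℝ) : b⁻¹ x = if x ≤ 1/2 then x else if x ≤ 5/8 then 2 * x - 1/2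
    else if x ≤ 3/4 then x + 1/8 else if x ≤ 1 then (x + 1) / 2 else x := by
  rw [Equiv.Perm.inv_eq_iff_eq, hb]
  split_ifs <;> linarith

omit [Ctx] in
lemma lin_of_formula {f : G} {d i d' i' : ℕ}
    (h : ∀ s : ℝ, 0 ≤ s → s ≤ 1 → f ((i + s) / 2 ^ d) = (i' + s) / 2 ^ d') :
    ∃ ν', Lin f (d, i) ν' := ⟨(d', i'), fun s hs => h s hs.1 hs.2⟩

lemma deep_a : Deep a 3 := by
  refine deep_of_level fun i hi => ?_
  have key : ∀ i d' i' : ℕ, (∀ s : ℝ, 0 ≤ s → s ≤ 1 → a ((i + s) / 8) = (i' + s) / 2 ^ d') →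
      ∃ ν', Lin a (3, i) ν' := fun i d' i' h => lin_of_formula fun s h0 h1 => by
    rw [← h s h0 h1]; norm_num
  interval_cases i
  · refine key _ 4 0 fun s h0 h1 => ?_; rw [ha]; push_cast; split_ifs <;> linarith
  · refine key _ 4 1 fun s h0 h1 => ?_; rw [ha]; push_cast; split_ifs <;> linarith
  · refine key _ 4 2 fun s h0 h1 => ?_; rw [ha]; push_cast; split_ifs <;> linarith
  · refine key _ 4 3 fun s h0 h1 => ?_; rw [ha]; push_cast; split_ifs <;> linarith
  · refine key _ 3 2 fun s h0 h1 => ?_; rw [ha]; push_cast; split_ifs <;> linarith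
  · refine key _ 3 3 fun s h0 h1 => ?_; rw [ha]; push_cast; split_ifs <;> linarith
  · refine key _ 2 2 fun s h0 h1 => ?_; rw [ha]; push_cast; split_ifs <;> linarith
  · refine key _ 2 3 fun s h0 h1 => ?_; rw [ha]; push_cast; split_ifs <;> linarith

lemma deep_a' : Deep a⁻¹ 3 := by
  refine deep_of_level fun i hi => ?_
  have key : ∀ i d' i' : ℕ, (∀ s : ℝ, 0 ≤ s → s ≤ 1 → a⁻¹ ((i + s) / 8) = (i' + s) / 2 ^ d') →
      ∃ ν', Lin a⁻¹ (3, i) ν' := fun i d' i' h => lin_of_formula fun s h0 h1 => by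
    rw [← h s h0 h1]; norm_num
  interval_cases i
  · refine key _ 2 0 fun s h0 h1 => ?_; rw [ha']; push_cast; split_ifs <;> linarith
  · refine key _ 2 1 fun s h0 h1 => ?_; rw [ha']; push_cast; split_ifs <;> linarith
  · refine key _ 3 4 fun s h0 h1 => ?_; rw [ha']; push_cast; split_ifs <;> linarith
  · refine key _ 3 5 fun s h0 h1 => ?_; rw [ha']; push_cast; split_ifs <;> linarith
  · refine key _ 4 12 fun s h0 h1 => ?_; rw [ha']; push_cast; split_ifs <;> linarith
  · refine key _ 4 13 fun s h0 h1 => ?_; rw [ha']; push_cast; split_ifs <;> linarith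
  · refine key _ 4 14 fun s h0 h1 => ?_; rw [ha']; push_cast; split_ifs <;> linarith
  · refine key _ 4 15 fun s h0 h1 => ?_; rw [ha']; push_cast; split_ifs <;> linarith

lemma deep_b : Deep b 3 := by
  refine deep_of_level fun i hi => ?_
  have key : ∀ i d' i' : ℕ, (∀ s : ℝ, 0 ≤ s → s ≤ 1 → b ((i + s) / 8) = (i' + s) / 2 ^ d') →
      ∃ ν', Lin b (3, i) ν' := fun i d' i' h => lin_of_formula fun s h0 h1 => by
    rw [← h s h0 h1]; norm_num
  interval_cases i
  · refine key _ 3 0 fun s h0 h1 => ?_; rw [hb]; push_cast; split_ifs <;> linarith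
  · refine key _ 3 1 fun s h0 h1 => ?_; rw [hb]; push_cast; split_ifs <;> linarith
  · refine key _ 3 2 fun s h0 h1 => ?_; rw [hb]; push_cast; split_ifs <;> linarith
  · refine key _ 3 3 fun s h0 h1 => ?_; rw [hb]; push_cast; split_ifs <;> linarith
  · refine key _ 4 8 fun s h0 h1 => ?_; rw [hb]; push_cast; split_ifs <;> linarith
  · refine key _ 4 9 fun s h0 h1 => ?_; rw [hb]; push_cast; split_ifs <;> linarith
  · refine key _ 3 5 fun s h0 h1 => ?_; rw [hb]; push_cast; split_ifs <;> linarith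
  · refine key _ 2 3 fun s h0 h1 => ?_; rw [hb]; push_cast; split_ifs <;> linarith

lemma deep_b' : Deep b⁻¹ 3 := by
  refine deep_of_level fun i hi => ?_
  have key : ∀ i d' i' : ℕ, (∀ s : ℝ, 0 ≤ s → s ≤ 1 → b⁻¹ ((i + s) / 8) = (i' + s) / 2 ^ d') →
      ∃ ν', Lin b⁻¹ (3, i) ν' := fun i d' i' h => lin_of_formula fun s h0 h1 => by
    rw [← h s h0 h1]; norm_num
  interval_cases i
  · refine key _ 3 0 fun s h0 h1 => ?_; rw [hb']; push_cast; split_ifs <;> linarith
  · refine key _ 3 1 fun s h0 h1 => ?_; rw [hb']; push_cast; split_ifs <;> linarith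
  · refine key _ 3 2 fun s h0 h1 => ?_; rw [hb']; push_cast; split_ifs <;> linarith
  · refine key _ 3 3 fun s h0 h1 => ?_; rw [hb']; push_cast; split_ifs <;> linarith
  · refine key _ 2 2 fun s h0 h1 => ?_; rw [hb']; push_cast; split_ifs <;> linarith
  · refine key _ 3 6 fun s h0 h1 => ?_; rw [hb']; push_cast; split_ifs <;> linarith
  · refine key _ 4 14 fun s h0 h1 => ?_; rw [hb']; push_cast; split_ifs <;> linarith
  · refine key _ 4 15 fun s h0 h1 => ?_; rw [hb']; push_cast; split_ifs <;> linarith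

lemma pl_a : PL a := by
  refine ⟨fun x y h => ?_, fun x h => ?_, fun x h => ?_, ⟨_, deep_a⟩, ⟨_, deep_a'⟩⟩ <;>
    simp only [ha] <;> split_ifs <;> linarith

lemma pl_b : PL b := by
  refine ⟨fun x y h => ?_, fun x h => ?_, fun x h => ?_, ⟨_, deep_b⟩, ⟨_, deep_b'⟩⟩ <;>
    simp only [hb] <;> split_ifs <;> linarith

lemma pl_of_FF {f : G} (h : f ∈ FF) : PL f := by
  induction h using Subgroup.closure_induction with
  | mem x hx =>
    rcases hx with rfl | rfl
    exacts [pl_a, pl_b]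
  | one => exact PL.one
  | mul x y _ _ hx hy => exact hx.mul hy
  | inv x _ hx => exact hx.inv

lemma pl {f : G} (h : f ∈ H) : PL f := pl_of_FF (le h)

lemma Rot.step {c : ℝ} {y : G} (h : Rot c y) (h0 : 0 < c) (hc : c ≤ 1 / 2) :
    Rot (c / 2) (a⁻¹ * y * a) := by
  obtain ⟨h1, h2, h3, h4⟩ := h
  have ea : ∀ z, 3 / 4 ≤ z → z ≤ 1 → a z = 2 * z - 1 := fun z _ _ => by
    rw [ha]
    split_ifs <;> linarith
  have ea' : ∀ z, 1 / 2 ≤ z → z ≤ 1 → a⁻¹ z = (z + 1) / 2 := fun z _ _ => by
    rw [ha']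
    split_ifs <;> linarith
  refine ⟨fun z hz => ?_, fun z hz hz' => ?_, fun z hz hz' => ?_, fun z hz hz' => ?_⟩ <;>
    simp only [mul_ap]
  · rw [h1, inv_ap]
    rw [ha]
    split_ifs <;> linarith
  · rw [ea z (by linarith) (by linarith), h2 _ (by linarith) (by linarith),
      ea' _ (by linarith) (by linarith)]
    ring
  · rw [ea z (by linarith) (by linarith), h3 _ (by linarith) (by linarith),
      ea' _ (by linarith) (by linarith)]
    ring
  · rw [ea z (by linarith) (by linarith), h4 _ (by linarith) (by linarith),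
      ea' _ (by linarith) (by linarith)]
    ring

lemma exists_rot_succ (k : ℕ) : ∃ y ∈ FF, Rot (1 / 2 ^ (k + 1)) y := by
  induction k with
  | zero =>
    refine ⟨b⁻¹, inv_mem b_mem, fun z hz => ?_, fun z hz hz' => ?_, fun z hz hz' => ?_,
      fun z hz hz' => ?_⟩ <;> rw [hb'] <;> norm_num at hz <;> split_ifs <;> linarith
  | succ k ih =>
    obtain ⟨y, hy, h⟩ := ih
    refine ⟨_, mul_mem (mul_mem (inv_mem a_mem) hy) a_mem, ?_⟩
    convert h.step (by positivity) ?_ using 1
    · rw [pow_succ _ (k + 1)]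
      field_simp
    · rw [pow_succ]
      have : (1 : ℝ) ≤ 2 ^ k := one_le_pow₀ one_le_two
      rw [div_le_div_iff₀ (by positivity) (by norm_num)]
      linarith

lemma exists_rot (k : ℕ) : ∃ y ∈ FF, Rot (1 / 2 ^ k) y := by
  cases k with
  | zero =>
    refine ⟨a⁻¹, inv_mem a_mem, fun z hz => ?_, fun z hz hz' => ?_, fun z hz hz' => ?_,
      fun z hz hz' => ?_⟩ <;> rw [ha'] <;> norm_num at hz <;> split_ifs <;> linarith
  | succ k => exact exists_rot_succ k

omit [Ctx] in
lemma inv_pow_le {j k : ℕ} (h : j ≤ k) : (1 : ℝ) / 2 ^ k ≤ 1 / 2 ^ j :=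
  one_div_le_one_div_of_le (by positivity) (pow_le_pow_right₀ one_le_two h)

/-- Every partition into nodes is mapped onto the vine by an element of the group. -/
lemma chain_vine : ∀ (n : ℕ) (P : ℕ → ℕ × ℕ), Chain n P →
    ∃ g ∈ FF, ∀ k ≤ n, ∀ s ∈ Icc (0 : ℝ) 1, g (pt (P k) s) = vine n k s := by
  intro n
  induction n with
  | zero =>
    rintro P ⟨h0, h1, -⟩
    refine ⟨1, one_mem _, fun k hk s _ => ?_⟩
    obtain rfl : k = 0 := by omega
    have e := pt_add (P 0) 0 s
    rw [hi_eq, h0] at h1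
    rw [zero_add, h0] at e
    simp only [vine, lt_irrefl, if_false, Equiv.Perm.one_apply, e]
    linear_combination s * h1
  | succ n ih =>
    intro P hP
    obtain ⟨k, hk, d, i, e1, e2⟩ := hP.siblings
    obtain ⟨h0, h1, h2⟩ := hP
    obtain ⟨g, hg, hv⟩ := ih (fun j => if j < k then P j else if j = k then (d, i) else P (j + 1)) (by
      have l1 : pt (d, i) 0 = pt (P k) 0 := by rw [e1, pt_left, zero_div]
      have l2 : pt (d, i) 1 = pt (P (k + 1)) 1 := by rw [e2, pt_right]; norm_num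
      refine ⟨?_, ?_, fun j hj => ?_⟩
      · rcases Nat.eq_zero_or_pos k with rfl | hk0
        · simpa [l1] using h0
        · simpa [hk0] using h0
      · rcases hk.eq_or_lt with rfl | hk0
        · simpa [l2] using h1
        · simpa [hk0.le.not_gt, hk0.ne'] using h1
      · rcases lt_trichotomy (j + 1) k with h | rfl | h
        · simpa [h, show j < k by omega] using h2 j (by omega)
        · simpa [l1] using h2 j (by omega)
        · rcases (show k ≤ j by omega).eq_or_lt with rfl | h'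
          · simpa [l2] using h2 (k + 1) (by omega)
          · simpa [h.le.not_gt, h.ne', h'.le.not_gt, h'.ne'] using h2 (j + 1) (by omega))
    have v1 : ∀ j < k, ∀ s ∈ Icc (0 : ℝ) 1, g (pt (P j) s) = vine n j s := fun j hj s hs => by
      simpa [hj] using hv j (by omega) s hs
    have v2 : ∀ s ∈ Icc (0 : ℝ) 1, g (pt (P k) s) = vine n k (s / 2) := fun s hs => by
      simpa [e1, pt_left] using hv k hk (s / 2) ⟨by linarith [hs.1], by linarith [hs.2]⟩
    have v3 : ∀ s ∈ Icc (0 : ℝ) 1, g (pt (P (k + 1)) s) = vine n k ((1 + s) / 2) := fun s hs => by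
      simpa [e2, pt_right] using hv k hk ((1 + s) / 2) ⟨by linarith [hs.1], by linarith [hs.2]⟩
    have v4 : ∀ j, k < j → j ≤ n → ∀ s ∈ Icc (0 : ℝ) 1, g (pt (P (j + 1)) s) = vine n j s :=
      fun j hj hj' s hs => by simpa [hj.le.not_gt, hj.ne'] using hv j hj' s hs
    rcases hk.eq_or_lt with rfl | hkn
    · refine ⟨g, hg, fun j hj s hs => ?_⟩
      rcases lt_trichotomy j k with h | rfl | h
      · rw [v1 j h s hs]
        simp [vine, h, show j < k + 1 by omega]
      · rw [v2 s hs]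
        simp only [vine, lt_irrefl, if_false, Nat.lt_succ_self, if_true, pow_succ]
        field_simp
      · obtain rfl : j = k + 1 := by omega
        rw [v3 s hs]
        simp only [vine, lt_irrefl, if_false, pow_succ]
        field_simp
        ring
    · obtain ⟨y, hy, r1, r2, r3, r4⟩ := exists_rot k
      refine ⟨y * g, mul_mem hy hg, fun j hj s hs => ?_⟩
      obtain ⟨s0, s1⟩ := hs
      have hc : (0 : ℝ) < 1 / 2 ^ k := by positivity
      rw [mul_ap]
      rcases lt_trichotomy j k with h | rfl | h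
      · rw [v1 j h s ⟨s0, s1⟩]
        simp only [vine, show j < n by omega, show j < n + 1 by omega, if_true]
        apply r1
        have := inv_pow_le (show j + 1 ≤ k by omega)
        have : (1 : ℝ) / 2 ^ (j + 1) ≤ (2 - s) / 2 ^ (j + 1) := by gcongr; linarith
        linarith
      · have e : vine n j (s / 2) = 1 - 1 / 2 ^ j + s / 4 * (1 / 2 ^ j) := by
          simp only [vine, hkn, if_true, pow_succ]
          field_simp
          ring
        rw [v2 s ⟨s0, s1⟩, e, r2 _ (by nlinarith) (by nlinarith)]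
        simp only [vine, show j < n + 1 by omega, if_true, pow_succ]
        field_simp
        ring
      · obtain ⟨j, rfl⟩ : ∃ j', j = j' + 1 := Nat.exists_eq_succ_of_ne_zero (by omega)
        rcases (show k ≤ j by omega).eq_or_lt with rfl | h'
        · have e : vine n k ((1 + s) / 2) = 1 - 3 * (1 / 2 ^ k) / 4 + s / 4 * (1 / 2 ^ k) := by
            simp only [vine, hkn, if_true, pow_succ]
            field_simp
            ring
          rw [v3 s ⟨s0, s1⟩, e, r3 _ (by nlinarith) (by nlinarith)]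
          simp only [vine, show k + 1 < n + 1 by omega, if_true, pow_succ]
          field_simp
          ring
        · rw [v4 j h' (by omega) s ⟨s0, s1⟩]
          have e0 : (1 : ℝ) / 2 ^ k / 2 = 1 / 2 ^ (k + 1) := by
            rw [pow_succ]
            field_simp
          have e1 := inv_pow_le (show k + 1 ≤ j by omega)
          rcases (show j ≤ n by omega).eq_or_lt with rfl | h''
          · simp only [vine, lt_irrefl, if_false]
            have : (1 - s) / 2 ^ j ≤ 1 / 2 ^ j := by gcongr; linarith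
            have : 0 ≤ (1 - s) / 2 ^ j := div_nonneg (by linarith) (by positivity)
            rw [r4 _ (by linarith) (by linarith), pow_succ]
            field_simp
            ring
          · simp only [vine, h'', show j + 1 < n + 1 by omega, if_true]
            have : (2 - s) / 2 ^ (j + 1) ≤ 1 / 2 ^ j := by
              rw [pow_succ, div_le_div_iff₀ (by positivity) (by positivity)]
              nlinarith [show (0 : ℝ) < 2 ^ j by positivity]
            have : 0 ≤ (2 - s) / 2 ^ (j + 1) := div_nonneg (by linarith) (by positivity)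
            rw [r4 _ (by linarith) (by linarith), pow_succ _ (j + 1)]
            field_simp
            ring

/-- The generation theorem. -/
lemma mem_FF {f : G} {M : ℕ} (hl : ∀ x ≤ 0, f x = x) (hr : ∀ x ≥ 1, f x = x) (hM : Deep f M) :
    f ∈ FF := by
  obtain ⟨n, hn⟩ : ∃ n, 2 ^ M = n + 1 := Nat.exists_eq_succ_of_ne_zero (by positivity)
  have : ∀ i, ∃ ν', i ≤ n → Lin f (M, i) ν' := fun i => by
    by_cases hi : i ≤ n
    · obtain ⟨ν', -, h⟩ := hM (M, i) (show i < 2 ^ M by omega) le_rfl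
      exact ⟨ν', fun _ => h⟩
    · exact ⟨(0, 0), fun h => (hi h).elim⟩
  choose Q hQ using this
  have c0 : pt (M, 0) 0 = 0 := by simp [pt]
  have c1 : pt (M, n) 1 = 1 := by
    have : (n : ℝ) + 1 = 2 ^ M := by exact_mod_cast hn.symm
    simp [pt, this]
  obtain ⟨g₁, h₁, e₁⟩ := chain_vine n (fun i => (M, i)) ⟨c0, c1, fun k _ => pt_one _⟩
  obtain ⟨g₂, h₂, e₂⟩ := chain_vine n Q ⟨by rw [← (hQ 0 (by omega)).lo, c0, hl 0 le_rfl],
    by rw [← (hQ n le_rfl).hi, c1, hr 1 le_rfl],
    fun k hk => by rw [← (hQ k hk.le).hi, ← (hQ (k + 1) hk).lo, pt_one]⟩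
  have : f = g₂⁻¹ * g₁ := by
    have p := pl_of_FF (mul_mem (inv_mem h₂) h₁)
    ext x
    rcases le_or_gt x 0 with h | h
    · rw [hl x h, p.left x h]
    rcases le_or_gt 1 x with h' | h'
    · rw [hr x h', p.right x h']
    obtain ⟨i, hi, a0, a1⟩ := exists_node_right h.le h' M
    obtain ⟨s, hs, rfl⟩ := exists_pt_mem a0 a1.le
    have hi' : i ≤ n := by unfold Valid at hi; simp only at hi; omega
    rw [mul_ap, e₁ i hi' s hs, ← e₂ i hi' s hs, inv_ap, hQ i hi' s hs]
  rw [this]
  exact mul_mem (inv_mem h₂) h₁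

/-- Cutting at a dyadic fixed point. -/
lemma cut {h : G} (hh : h ∈ H) {u : ℝ} (hu : Dy u) (hf : h u = u) :
    ∃ k ∈ H, (∀ x ≤ u, k x = h x) ∧ ∀ x ≥ u, k x = x := by
  have p := pl hh
  rcases le_or_gt 1 u with h1 | h1
  · exact ⟨h, hh, fun _ _ => rfl, fun x hx => p.right x (h1.trans hx)⟩
  rcases hu.nonneg.eq_or_lt with rfl | h0
  · exact ⟨1, one_mem _, fun x hx => (p.left x hx).symm, fun _ _ => rfl⟩
  have i1 : ∀ x ≤ u, h x ≤ u := fun x hx => (p.le.2 hx).trans_eq hf
  have i2 : ∀ x ≤ u, h⁻¹ x ≤ u := fun x hx => (p.inv.le.2 hx).trans_eq (inv_fix hf)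
  let k : G := ⟨fun x => if x ≤ u then h x else x, fun x => if x ≤ u then h⁻¹ x else x,
    fun x => by by_cases hx : x ≤ u <;> simp [hx, i1],
    fun x => by
      by_cases hx : x ≤ u
      · simp only [hx, i2 x hx, if_true, ap_inv]
      · simp [hx]⟩
  have k1 : ∀ x ≤ u, k x = h x := fun x hx => if_pos hx
  have k2 : ∀ x ≥ u, k x = x := fun x hx => by
    rcases hx.eq_or_lt with rfl | hx
    · rw [k1 _ le_rfl, hf]
    · exact if_neg hx.not_ge
  refine ⟨k, closed k ?_ ⟨2, fun i => if i = 0 then 0 else if i = 1 then u else 1, by simp,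
    by simp, fun i hi => ?_, fun i hi => ?_⟩, k1, k2⟩
  · obtain ⟨M, hM⟩ := p.deep
    obtain ⟨D, hD⟩ := hu.grid
    refine mem_FF (M := max M D) (fun x hx => ?_) (fun x hx => k2 x (h1.le.trans hx))
      (deep_of_level fun i hi => ?_)
    · rw [k1 x (hx.trans h0.le), p.left x hx]
    obtain ⟨j, hj⟩ := hD _ (le_max_right M D)
    rcases lt_or_ge i j with hij | hij
    · obtain ⟨ν', -, hν⟩ := hM (max M D, i) hi (le_max_left _ _)
      refine ⟨ν', fun s hs => ?_⟩
      rw [k1, hν s hs]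
      have : (i : ℝ) + 1 ≤ j := by exact_mod_cast hij
      simp only [hj, pt]
      exact div_le_div_of_nonneg_right (by linarith [hs.2]) (by positivity)
    · refine ⟨_, fun s hs => k2 _ ?_⟩
      have : (j : ℝ) ≤ i := by exact_mod_cast hij
      simp only [hj, pt, ge_iff_le]
      gcongr
      exact hs.1
  · interval_cases i <;> simpa
  · interval_cases i
    · exact ⟨h, hh, fun x hx => k1 x (by simpa using hx.2)⟩
    · exact ⟨1, one_mem _, fun x hx => k2 x (by simpa using hx.1)⟩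

/-- Gluing two elements at a dyadic point where they agree. -/
lemma glue {h k : G} (hh : h ∈ H) (hk : k ∈ H) {u : ℝ} (hu : Dy u) (hf : h u = k u) :
    ∃ g ∈ H, (∀ x ≤ u, g x = h x) ∧ ∀ x ≥ u, g x = k x := by
  obtain ⟨m, hm, m1, m2⟩ := cut (mul_mem (inv_mem hk) hh) hu (by rw [mul_ap, hf, inv_ap])
  exact ⟨k * m, mul_mem hk hm, fun x hx => by rw [mul_ap, m1 x hx, mul_ap, ap_inv],
    fun x hx => by rw [mul_ap, m2 x hx]⟩

lemma cut' {h : G} (hh : h ∈ H) {u : ℝ} (hu : Dy u) (hf : h u = u) :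
    ∃ k ∈ H, (∀ x ≤ u, k x = x) ∧ ∀ x ≥ u, k x = h x :=
  glue (one_mem H) hh hu hf.symm

end Pool.Agent.MP_337e3e_al.H98
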